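import Pool.Agent.H.MP_0b4a43_pr.A

namespace Pool.Agent.Results.MP_0b4a43_pr.Inf

open MeasureTheory Filter Topology

theorem result {G : Type} [Group G] [TopologicalSpace G] [IsTopologicalGroup G] [MeasurableSpace G]
    [BorelSpace G] (μ : Measure G) [IsProbabilityMeasure μ]
    (adapted : ∀ H : Subgroup G, IsClosed (H : Set G) → H ≠ ⊤ → μ H < 1)
    (symm : ∀ A : Set G, MeasurableSet A → μ A⁻¹ = μ A)
    (f : G → ℝ) (cont : Continuous f) (nonconst : ∃ x y, f x ≠ f y)
    (conv : ∀ x, ∀ᵐ ω ∂(Measure.infinitePi fun _ : ℕ => μ),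
      ∃ l, Tendsto (fun t => f (x * ((List.range t).map ω).prod)) atTop (𝓝 l)) :
    ¬ FiniteDimensional ℝ (Submodule.span ℝ (Set.range fun γ x => f (γ⁻¹ * x))) := fun hd => by
  obtain ⟨x, y, h⟩ := nonconst
  have := H.MP_0b4a43_pr.main μ (fun H h1 h2 => by_contra fun h3 => (adapted H h1 h3).ne h2) symm f
    cont conv hd
  exact h ((this x).trans (this y).symm)

end Pool.Agent.Results.MP_0b4a43_pr.Inf
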